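import Pool.Agent.R246.SK.Defs

/-!
# SK-LIFT (helper657 for helper246): lifts of Möbius maps of the circle
-/

open scoped ContDiff ComplexConjugate
open Filter MeasureTheory

namespace Pool.Agent.R246.SK

noncomputable section

namespace Lift657

/-- the argument of the logarithm -/
def zz (w : ℂ) (t : ℝ) : ℂ := 1 - w * Complex.exp (((-t : ℝ) : ℂ) * Complex.I)

/-- the lift -/
def L (w : ℂ) (t : ℝ) : ℝ := t + 2 * (Complex.log (zz w t)).im

theorem ee_one (t : ℝ) : ee 1 t = Complex.exp ((t : ℂ) * Complex.I) := by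
  simp [ee, mul_comm]

theorem norm_w (w : ℂ) (t : ℝ) : ‖w * Complex.exp (((-t : ℝ) : ℂ) * Complex.I)‖ = ‖w‖ := by
  rw [norm_mul, Complex.norm_exp_ofReal_mul_I, mul_one]

theorem zz_re {w : ℂ} (hw : ‖w‖ < 1) (t : ℝ) : 0 < (zz w t).re := by
  have h := Complex.re_le_norm (w * Complex.exp (((-t : ℝ) : ℂ) * Complex.I))
  rw [norm_w] at h
  simp only [zz, Complex.sub_re, Complex.one_re]
  linarith

theorem zz_slit {w : ℂ} (hw : ‖w‖ < 1) (t : ℝ) : zz w t ∈ Complex.slitPlane :=
  Or.inl (zz_re hw t)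

theorem zz_ne {w : ℂ} (hw : ‖w‖ < 1) (t : ℝ) : zz w t ≠ 0 :=
  Complex.slitPlane_ne_zero (zz_slit hw t)

theorem zz_per (w : ℂ) (t : ℝ) : zz w (t + 2 * Real.pi) = zz w t := by
  unfold zz
  have : (((-(t + 2 * Real.pi) : ℝ) : ℂ) * Complex.I) =
      ((-t : ℝ) : ℂ) * Complex.I - 2 * Real.pi * Complex.I := by
    push_cast
    ring
  rw [this, Complex.exp_periodic.sub_eq]

theorem zz_contDiff (w : ℂ) : ContDiff ℝ ∞ (zz w) := by
  unfold zz
  have h1 : ContDiff ℝ ∞ (fun t : ℝ => ((-t : ℝ) : ℂ)) :=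
    Complex.ofRealCLM.contDiff.comp contDiff_neg
  exact contDiff_const.sub (contDiff_const.mul ((h1.mul contDiff_const).cexp))

theorem L_contDiff {w : ℂ} (hw : ‖w‖ < 1) : ContDiff ℝ ∞ (L w) := by
  have h1 : ContDiff ℝ ∞ (fun t => Complex.log (zz w t)) := by
    rw [contDiff_iff_contDiffAt]
    intro t
    have := (Complex.contDiffAt_log (n := ∞) (zz_slit hw t)).restrict_scalars ℝ
    exact this.comp t (zz_contDiff w).contDiffAt
  have h2 : ContDiff ℝ ∞ (fun t => (Complex.log (zz w t)).im) :=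
    Complex.imCLM.contDiff.comp h1
  exact contDiff_id.add (contDiff_const.mul h2)

theorem L_per (w : ℂ) (t : ℝ) : L w (t + 2 * Real.pi) = L w t + 2 * Real.pi := by
  unfold L
  rw [zz_per]
  ring

/-- `zz` in terms of `e^{it}` -/
theorem zz_eq (w : ℂ) (t : ℝ) : ee 1 t * zz w t = ee 1 t - w := by
  rw [ee_one, zz, mul_sub, mul_one, mul_left_comm, ← Complex.exp_add]
  have : (t : ℂ) * Complex.I + ((-t : ℝ) : ℂ) * Complex.I = 0 := by push_cast; ring
  rw [this, Complex.exp_zero, mul_one]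

theorem conj_zz (w : ℂ) (t : ℝ) : conj (zz w t) = 1 - conj w * ee 1 t := by
  rw [ee_one, zz, map_sub, map_one, map_mul, ← Complex.exp_conj]
  congr 3
  simp

theorem L_ee {w : ℂ} (hw : ‖w‖ < 1) (t : ℝ) :
    ee 1 (L w t) = (ee 1 t - w) / (1 - conj w * ee 1 t) := by
  have hz := zz_ne hw t
  have hcz : conj (zz w t) ≠ 0 := by simpa using hz
  rw [← zz_eq, ← conj_zz, ee_one, ee_one, L]
  have h1 : (((t + 2 * (Complex.log (zz w t)).im : ℝ) : ℂ) * Complex.I) =
      (t : ℂ) * Complex.I + ((Complex.log (zz w t)) - conj (Complex.log (zz w t))) := by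
    rw [Complex.sub_conj]
    push_cast
    ring
  rw [h1, Complex.exp_add, Complex.exp_sub, Complex.exp_conj, Complex.exp_log hz, mul_div_assoc]

theorem L_hasDerivAt {w : ℂ} (hw : ‖w‖ < 1) (t : ℝ) : HasDerivAt (L w) (Pw w t) t := by
  set u : ℂ := w * Complex.exp (((-t : ℝ) : ℂ) * Complex.I) with hu
  have hz : HasDerivAt (zz w) (Complex.I * u) t := by
    have h1 : HasDerivAt (fun t : ℝ => ((-t : ℝ) : ℂ) * Complex.I) (((-1 : ℝ) : ℂ) * Complex.I) t :=
      (HasDerivAt.ofReal_comp (hasDerivAt_neg t)).mul_const Complex.I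
    have h2 := ((h1.cexp).const_mul w).const_sub 1
    refine HasDerivAt.congr_deriv h2 ?_
    rw [hu]
    push_cast
    ring
  have hl : HasDerivAt (fun t => Complex.log (zz w t)) (Complex.I * u / zz w t) t :=
    hz.clog_real (zz_slit hw t)
  have him : HasDerivAt (fun t => (Complex.log (zz w t)).im) ((Complex.I * u / zz w t).im) t := by
    exact Complex.imCLM.hasFDerivAt.comp_hasDerivAt t hl
  have h := (hasDerivAt_id t).add (him.const_mul 2)
  have he : Pw w t = 1 + 2 * ((Complex.I * u / zz w t).im) := by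
    have hzu : zz w t = 1 - u := rfl
    have hne : (1 : ℂ) - u ≠ 0 := hzu ▸ zz_ne hw t
    have hn : ‖w‖ = ‖u‖ := by rw [hu, norm_w]
    have h3 : ‖1 - conj w * ee 1 t‖ = ‖1 - u‖ := by
      rw [← conj_zz, ← hzu]
      exact RCLike.norm_conj _
    rw [Pw, h3, hn, hzu]
    have h4 : (Complex.I * u / (1 - u)).im = (u / (1 - u)).re := by
      rw [mul_div_assoc, Complex.I_mul_im]
    rw [h4]
    have h5 : Complex.normSq (1 - u) ≠ 0 := by
      simpa [Complex.normSq_eq_zero] using hne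
    rw [Complex.div_re, ← Complex.normSq_eq_norm_sq, ← Complex.normSq_eq_norm_sq]
    field_simp
    simp only [Complex.normSq_apply, Complex.sub_re, Complex.sub_im, Complex.one_re,
      Complex.one_im]
    ring
  rw [he]
  exact h

theorem L_abs {w : ℂ} (hw : ‖w‖ < 1) (t : ℝ) : |L w t - t| < Real.pi := by
  have h1 : L w t - t = 2 * Complex.arg (zz w t) := by
    rw [L, Complex.log_im]
    ring
  have h2 : |Complex.arg (zz w t)| < Real.pi / 2 := by
    rw [Complex.abs_arg_lt_pi_div_two_iff]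
    exact Or.inl (zz_re hw t)
  rw [h1, abs_mul]
  norm_num
  linarith

theorem L_inv {w v : ℂ} (hw : ‖w‖ < 1) (hv : ‖v‖ < 1) (hwv : v = -w) (t : ℝ) :
    L w (L v t) = t := by
  have h1 := L_ee hw (L v t)
  rw [L_ee hv t] at h1
  have hd1 : 1 - conj v * ee 1 t ≠ 0 := by
    rw [← conj_zz]
    simpa using zz_ne hv t
  have hd2 : (1 : ℂ) - conj w * w ≠ 0 := by
    intro h
    have h3 : conj w * w = ((‖w‖ ^ 2 : ℝ) : ℂ) := by
      rw [mul_comm, Complex.mul_conj, Complex.normSq_eq_norm_sq]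
    rw [h3, sub_eq_zero] at h
    have h4 : (1 : ℝ) = ‖w‖ ^ 2 := by exact_mod_cast h
    have h5 : ‖w‖ ^ 2 < 1 := by nlinarith [norm_nonneg w]
    linarith
  have h2 : ee 1 (L w (L v t)) = ee 1 t := by
    rw [h1]
    subst hwv
    simp only [map_neg, neg_mul, sub_neg_eq_add] at hd1 ⊢
    generalize conj w = c at hd1 hd2 ⊢
    generalize ee 1 t = e at hd1 ⊢
    have hd3 : 1 + e * c ≠ 0 := by rwa [mul_comm e c]
    have h6 : (1 : ℂ) - c * ((e + w) / (1 + c * e)) =
        (1 - c * w) / (1 + c * e) := by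
      field_simp
      ring
    have h7 : ((e + w) / (1 + c * e)) - w =
        e * (1 - c * w) / (1 + c * e) := by
      field_simp
      ring
    rw [h6, h7]
    field_simp
  rw [ee_one, ee_one, Complex.exp_eq_exp_iff_exists_int] at h2
  obtain ⟨n, hn⟩ := h2
  have h3 : L w (L v t) - t = n * (2 * Real.pi) := by
    have h4 : ((L w (L v t) : ℝ) : ℂ) = (t : ℂ) + n * (2 * Real.pi) := by
      have h5 : (((L w (L v t) : ℝ) : ℂ) - ((t : ℂ) + n * (2 * Real.pi))) * Complex.I = 0 := by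
        linear_combination hn
      rcases mul_eq_zero.1 h5 with h5 | h5
      · exact sub_eq_zero.1 h5
      · exact absurd h5 Complex.I_ne_zero
    have h6 : L w (L v t) = t + n * (2 * Real.pi) := by exact_mod_cast h4
    linarith
  have h4 : |L w (L v t) - t| < 2 * Real.pi := by
    have h5 := L_abs hw (L v t)
    have h6 := L_abs hv t
    have h7 : L w (L v t) - t = (L w (L v t) - L v t) + (L v t - t) := by ring
    rw [h7]
    calc _ ≤ |L w (L v t) - L v t| + |L v t - t| := abs_add_le _ _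
      _ < _ := by linarith
  rw [h3, abs_mul, abs_of_pos Real.two_pi_pos] at h4
  have h5 : |(n : ℝ)| < 1 := by
    have := Real.two_pi_pos
    nlinarith
  have h6 : n = 0 := by
    have h7 : |n| < 1 := by exact_mod_cast h5
    exact Int.abs_lt_one_iff.1 h7
  rw [h6] at h3
  simp at h3
  linarith

end Lift657

open Lift657 in
theorem s_lift : S_LIFT := by
  intro w hw
  have hv : ‖-w‖ < 1 := by rwa [norm_neg]
  refine ⟨L (-w), L w, L_contDiff hv, L_contDiff hw, L_per _, L_per _,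
    fun t => L_inv hv hw (by simp) t, fun t => L_inv hw hv rfl t, ?_, ?_, L_ee hw, ?_⟩
  · intro t
    rw [(L_hasDerivAt hv t).deriv, Pw]
    have h1 : 1 - conj (-w) * ee 1 t ≠ 0 := by
      rw [← conj_zz]
      simpa using zz_ne hv t
    have h2 : ‖-w‖ ^ 2 < 1 := by nlinarith [norm_nonneg (-w)]
    have h3 : 0 < ‖1 - conj (-w) * ee 1 t‖ := norm_pos_iff.2 h1
    apply div_pos (by linarith) (by positivity)
  · intro t
    exact (L_hasDerivAt hw t).deriv
  · intro t
    rw [L_ee hv t]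
    simp

end

end Pool.Agent.R246.SK
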